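import Pool.Agent.H80.Cube.Num

/-!
# Parameters of the square root theorem, the remaining inequalities
-/

set_option linter.unusedVariables false

namespace Pool.Agent.H80.Cube

open Pool.Agent.H16.Cube

/-- The union bound over pairs, with the constants needed at the end. -/
theorem num_exp (n : ℕ) (hn : 4 ≤ n) :
    ((2 : ℝ) ^ n + 2 ^ n * 2 ^ n) * Real.exp (-(2 * (n : ℝ))) ≤ 1 / 4 := by
  have h1 : (2 : ℝ) ^ n + 2 ^ n * 2 ^ n ≤ 2 * (4 : ℝ) ^ n := by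
    have h4 : (4 : ℝ) ^ n = 2 ^ n * 2 ^ n := by rw [← mul_pow]; norm_num
    have h2 : (1 : ℝ) ≤ 2 ^ n := one_le_pow₀ (by norm_num)
    rw [h4]; nlinarith
  have h2 : Real.exp (-(2 * (n : ℝ))) = Real.exp (-2) ^ n := by
    rw [← Real.exp_nat_mul]; congr 1; ring
  rw [h2]
  calc ((2 : ℝ) ^ n + 2 ^ n * 2 ^ n) * Real.exp (-2) ^ n ≤ (2 * 4 ^ n) * (1 / 7) ^ n := by
        apply mul_le_mul h1 _ (by positivity) (by positivity)
        exact pow_le_pow_left₀ (Real.exp_pos _).le exp_neg_two_lt n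
    _ = 2 * (4 / 7) ^ n := by rw [mul_assoc, ← mul_pow]; norm_num
    _ ≤ 2 * (4 / 7) ^ 4 := by
        apply mul_le_mul_of_nonneg_left _ (by norm_num)
        exact pow_le_pow_of_le_one (by norm_num) (by norm_num) hn
    _ ≤ 1 / 4 := by norm_num

section

variable (n q h l : ℕ) (h12 : 12 ≤ h) (hq1 : 256 * h ≤ q) (hq2 : q < 256 * (h + 1))
  (hn1 : q ^ 2 ≤ n) (hn2 : n < (q + 1) ^ 2) (hl1 : n ^ 3 ≤ 2 ^ l) (hl2 : 2 ^ l ≤ 2 * n ^ 3)
  (hl4 : 4 * l ≤ q) (hqh : q + 1 ≤ 2 ^ h) (hnh : n < 2 ^ (2 * h)) (c : ℝ)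
  (hc1 : 1 / (40000 * ((q : ℝ) + 1)) ≤ c) (hc2 : c ≤ 1 / (40000 * (q : ℝ)))

include h12 hq1 hl2 hqh hnh in
theorem num_E2 :
    2 * (n : ℝ) * (8 * (((q : ℝ) + 1) * (n * 2 ^ l)) ^ 2 * ((2 : ℝ) ^ h) ^ 42) ≤ 2 ^ q := by
  set A : ℝ := (2 : ℝ) ^ h with hA
  have hA0 : 0 < A := by positivity
  have h1 : (n : ℝ) ≤ A ^ 2 := by
    have : (n : ℝ) ≤ 2 ^ (2 * h) := by exact_mod_cast hnh.le
    rw [hA, ← pow_mul, mul_comm h 2]; exact this
  have h2 : (q : ℝ) + 1 ≤ A := by rw [hA]; exact_mod_cast hqh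
  have h3 : (n : ℝ) * 2 ^ l ≤ 2 * A ^ 8 := by
    have h4 : ((2 : ℝ)) ^ l ≤ 2 * (n : ℝ) ^ 3 := by exact_mod_cast hl2
    calc (n : ℝ) * 2 ^ l ≤ A ^ 2 * (2 * (A ^ 2) ^ 3) := by
          apply mul_le_mul h1 (h4.trans _) (by positivity) (by positivity)
          apply mul_le_mul_of_nonneg_left _ (by norm_num)
          exact pow_le_pow_left₀ (by positivity) h1 3
      _ = _ := by ring
  have h4 : ((q : ℝ) + 1) * (n * 2 ^ l) ≤ A * (2 * A ^ 8) :=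
    mul_le_mul h2 h3 (by positivity) (by positivity)
  have h5 : (((q : ℝ) + 1) * (n * 2 ^ l)) ^ 2 ≤ (A * (2 * A ^ 8)) ^ 2 :=
    pow_le_pow_left₀ (by positivity) h4 2
  calc 2 * (n : ℝ) * (8 * (((q : ℝ) + 1) * (n * 2 ^ l)) ^ 2 * A ^ 42)
      ≤ 2 * A ^ 2 * (8 * (A * (2 * A ^ 8)) ^ 2 * A ^ 42) := by
        apply mul_le_mul _ _ (by positivity) (by positivity)
        · exact mul_le_mul_of_nonneg_left h1 (by norm_num)
        · apply mul_le_mul_of_nonneg_right _ (by positivity)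
          exact mul_le_mul_of_nonneg_left h5 (by norm_num)
    _ = 2 ^ (62 * h + 6) := by
        rw [hA, pow_add, mul_comm 62 h, pow_mul]
        ring
    _ ≤ 2 ^ q := pow_le_pow_right₀ (by norm_num) (by omega)

include h12 hq1 hn1 hl2 hqh hnh in
theorem num_E1 :
    2 * (n : ℝ) * (8 * ((n : ℝ) * 2 ^ l) ^ 2 * ((2 : ℝ) ^ h) ^ 42) ≤ 2 ^ n := by
  have h1 := num_E2 n q h l h12 hq1 hl2 hqh hnh
  have h2 : (n : ℝ) * 2 ^ l ≤ ((q : ℝ) + 1) * (n * 2 ^ l) := by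
    have : (0 : ℝ) ≤ (q : ℝ) * (n * 2 ^ l) := by positivity
    linarith
  have h3 : ((n : ℝ) * 2 ^ l) ^ 2 ≤ (((q : ℝ) + 1) * (n * 2 ^ l)) ^ 2 :=
    pow_le_pow_left₀ (by positivity) h2 2
  have h4 : q ≤ n := (Nat.le_self_pow (by norm_num) q).trans hn1
  calc 2 * (n : ℝ) * (8 * ((n : ℝ) * 2 ^ l) ^ 2 * ((2 : ℝ) ^ h) ^ 42)
      ≤ 2 * (n : ℝ) * (8 * (((q : ℝ) + 1) * (n * 2 ^ l)) ^ 2 * ((2 : ℝ) ^ h) ^ 42) := by
        apply mul_le_mul_of_nonneg_left _ (by positivity)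
        apply mul_le_mul_of_nonneg_right _ (by positivity)
        exact mul_le_mul_of_nonneg_left h3 (by norm_num)
    _ ≤ 2 ^ q := h1
    _ ≤ 2 ^ n := pow_le_pow_right₀ (by norm_num) h4

include h12 hq1 hn1 hl1 hl4 in
/-- The tail of the bad seeds. -/
theorem num_beta :
    (2 : ℝ) ^ n * 2 ^ l * Real.exp (-(2 ^ l / (512 * ((q : ℝ) + 1)))) *
      (((2 : ℝ) ^ h) ^ 22 * 4 ^ n) ≤ 1 := by
  have hq3 : 3072 ≤ q := by omega
  have hq3' : (3072 : ℝ) ≤ q := by exact_mod_cast hq3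
  have hqn : q ≤ n := (Nat.le_self_pow (by norm_num) q).trans hn1
  have hn1' : (q : ℝ) ^ 2 ≤ n := by exact_mod_cast hn1
  have hn0 : (0 : ℝ) < n := by nlinarith
  have hL : (n : ℝ) ^ 3 ≤ 2 ^ l := by exact_mod_cast hl1
  have h1 : 5 * (n : ℝ) ≤ 2 ^ l / (512 * ((q : ℝ) + 1)) := by
    rw [le_div_iff₀ (by positivity)]
    refine le_trans ?_ hL
    have h2 : 5 * (512 * ((q : ℝ) + 1)) ≤ (n : ℝ) ^ 2 := by
      have h3 : ((q : ℝ) ^ 2) ^ 2 ≤ (n : ℝ) ^ 2 := pow_le_pow_left₀ (by positivity) hn1' 2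
      refine le_trans ?_ h3
      have h4 : (3072 : ℝ) ^ 3 * q ≤ ((q : ℝ) ^ 2) ^ 2 := by
        calc (3072 : ℝ) ^ 3 * q ≤ (q : ℝ) ^ 3 * q :=
              mul_le_mul_of_nonneg_right (pow_le_pow_left₀ (by norm_num) hq3' 3) (by positivity)
          _ = _ := by ring
      linarith
    calc 5 * (n : ℝ) * (512 * ((q : ℝ) + 1)) = n * (5 * (512 * ((q : ℝ) + 1))) := by ring
      _ ≤ n * (n : ℝ) ^ 2 := mul_le_mul_of_nonneg_left h2 hn0.le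
      _ = _ := by ring
  have h2 : Real.exp (-(2 ^ l / (512 * ((q : ℝ) + 1)))) ≤ (1 / 2) ^ (5 * n) := by
    calc Real.exp (-(2 ^ l / (512 * ((q : ℝ) + 1)))) ≤ Real.exp (-(5 * (n : ℝ))) :=
          Real.exp_le_exp.mpr (by linarith)
      _ = (Real.exp (-1)) ^ (5 * n) := by
          rw [← Real.exp_nat_mul]; congr 1; push_cast; ring
      _ ≤ (1 / 2) ^ (5 * n) := by
          apply pow_le_pow_left₀ (Real.exp_pos _).le
          have h3 := Real.exp_one_gt_d9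
          rw [Real.exp_neg, ← one_div]
          apply one_div_le_one_div_of_le (by norm_num)
          linarith
  have h3 : (2 : ℝ) ^ n * 2 ^ l * (((2 : ℝ) ^ h) ^ 22 * 4 ^ n) ≤ 2 ^ (5 * n) := by
    have h4 : (4 : ℝ) ^ n = 2 ^ (2 * n) := by rw [pow_mul]; norm_num
    rw [h4, ← pow_mul, ← pow_add, ← pow_add, ← pow_add]
    apply pow_le_pow_right₀ (by norm_num)
    omega
  calc (2 : ℝ) ^ n * 2 ^ l * Real.exp (-(2 ^ l / (512 * ((q : ℝ) + 1)))) *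
      (((2 : ℝ) ^ h) ^ 22 * 4 ^ n)
      = ((2 : ℝ) ^ n * 2 ^ l * (((2 : ℝ) ^ h) ^ 22 * 4 ^ n)) *
        Real.exp (-(2 ^ l / (512 * ((q : ℝ) + 1)))) := by ring
    _ ≤ 2 ^ (5 * n) * (1 / 2) ^ (5 * n) := mul_le_mul h3 h2 (Real.exp_pos _).le (by positivity)
    _ = 1 := by rw [← mul_pow]; norm_num

end

end Pool.Agent.H80.Cube
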