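import Pool.Agent.H16.Cube.Big

/-!
# From a graph of large minimum degree to a sparse forbidden graph on the cube
-/

open Finset

set_option linter.unusedSectionVars false

namespace Pool.Agent.H80.Cube

open Pool.Agent.H16.Cube

/-- The reduction: identify the vertices with the positions such that each vertex has few
non-neighbours in each cell. -/
theorem reduce (n l : ℕ) (hl4 : 4 * l ≤ n) (_hn1 : 1 ≤ n) (c : ℝ) (hc0 : 0 < c)
    (hcL : 2 * (n : ℝ) + 1 ≤ 6 * c * 2 ^ l)
    (G : SimpleGraph (Fin (2 ^ n))) [DecidableRel G.Adj]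
    (hG : ∀ v, (1 - c) * (2 : ℝ) ^ n < (G.degree v : ℝ))
    (main : ∀ (adj : (Fin n → ZMod 2) → (Fin n → ZMod 2) → Prop) [DecidableRel adj],
      (∀ x z, adj x z → adj z x) →
      (∀ x, ((BC.Nb adj x).card : ℝ) ≤ c * 2 ^ n) →
      (∀ v x, ((univ.filter (fun r => (cubeBC n l hl4).sh r x ∈ BC.Nb adj v)).card : ℝ) ≤
        6 * c * 2 ^ l) →
      ∃ F : (Fin n → ZMod 2) → (Fin n → ZMod 2), Function.Injective F ∧
        ∀ x i, ¬ adj (F x) (F ((cubeBC n l hl4).nbr i x))) :
    ∃ F : (Fin n → ZMod 2) → Fin (2 ^ n), Function.Injective F ∧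
      ∀ x i, G.Adj (F x) (F (x + Pi.single i 1)) := by
  classical
  set N : ℝ := (2 : ℝ) ^ n with hN
  have hNpos : 0 < N := by rw [hN]; positivity
  set L : ℝ := (2 : ℝ) ^ l with hL
  have hLpos : 0 < L := by rw [hL]; positivity
  have hcardQ : Fintype.card (Fin n → ZMod 2) = 2 ^ n := by
    rw [Fintype.card_fun, ZMod.card, Fintype.card_fin]
  have hcardR : Fintype.card (Fin l → ZMod 2) = 2 ^ l := by
    rw [Fintype.card_fun, ZMod.card, Fintype.card_fin]
  have hcardQ' : (Fintype.card (Fin n → ZMod 2) : ℝ) = N := by rw [hcardQ, hN]; push_cast; rfl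
  -- the complement
  let H : Fin (2 ^ n) → Finset (Fin (2 ^ n)) := fun v => univ.filter (fun w => v ≠ w ∧ ¬ G.Adj v w)
  have hH : ∀ v, ((H v).card : ℝ) ≤ c * N := by
    intro v
    have h1 : (H v).card + G.degree v ≤ 2 ^ n := by
      have h2 : Disjoint (H v) (G.neighborFinset v) := by
        rw [disjoint_left]
        intro w hw hw'
        exact (mem_filter.mp hw).2.2 ((G.mem_neighborFinset v w).mp hw')
      have h3 := card_le_univ (H v ∪ G.neighborFinset v)
      rw [card_union_of_disjoint h2, G.card_neighborFinset_eq_degree, Fintype.card_fin] at h3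
      exact h3
    have h1' : ((H v).card : ℝ) + G.degree v ≤ N := by rw [hN]; exact_mod_cast h1
    have := hG v
    nlinarith
  -- the random bijection
  set K := cubeBC n l hl4 with hK
  set t : ℕ := ⌈6 * c * L⌉₊ with ht
  have ht1 : 6 * c * L ≤ t := Nat.le_ceil _
  have ht2 : (t : ℝ) < 6 * c * L + 1 := Nat.ceil_lt_add_one (by positivity)
  have htn : 2 * n + 1 ≤ t := by
    have : ((2 * n + 1 : ℕ) : ℝ) ≤ t := by push_cast; linarith
    exact_mod_cast this
  obtain ⟨ψ, hψ⟩ := exists_bij (Q := Fin n → ZMod 2) (V := Fin (2 ^ n))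
    (by rw [hcardQ, Fintype.card_fin]) (by rw [hcardQ]; positivity)
    (J := Fin (2 ^ n) × (Fin n → ZMod 2))
    (fun j => univ.image (fun r => K.sh r j.2)) (fun j => H j.1) (2 ^ l) t c hc0.le
    (by omega)
    (fun j => card_image_le.trans (by rw [card_univ, hcardR]))
    (fun j => by rw [hcardQ']; exact hH j.1)
    (by
      have htpos : (0 : ℝ) < t := by
        have : 0 < t := by omega
        exact_mod_cast this
      have h1 : ((2 ^ l : ℕ) : ℝ) * c * Real.exp 1 / t ≤ 1 / 2 := by
        rw [div_le_iff₀ htpos]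
        have h2 : ((2 ^ l : ℕ) : ℝ) = L := by rw [hL]; push_cast; rfl
        rw [h2]
        have h3 := Real.exp_one_lt_d9
        have h4 : L * c * Real.exp 1 ≤ L * c * 3 :=
          mul_le_mul_of_nonneg_left (by linarith) (by positivity)
        linarith
      have h2 : (((2 ^ l : ℕ) : ℝ) * c * Real.exp 1 / t) ^ t ≤ (1 / 2) ^ (2 * n + 1) := by
        calc _ ≤ (1 / 2 : ℝ) ^ t := pow_le_pow_left₀ (by positivity) h1 t
          _ ≤ _ := pow_le_pow_of_le_one (by norm_num) (by norm_num) htn
      rw [Fintype.card_prod, Fintype.card_fin, hcardQ]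
      push_cast
      have h3 : (2 : ℝ) ^ n * 2 ^ n * (1 / 2) ^ (2 * n + 1) < 1 := by
        have h4 : (2 : ℝ) ^ n * 2 ^ n * (1 / 2) ^ (2 * n + 1) = 1 / 2 := by
          rw [← pow_add, ← two_mul, pow_succ, ← mul_assoc, ← mul_pow]
          norm_num
        rw [h4]; norm_num
      refine lt_of_le_of_lt ?_ h3
      apply mul_le_mul_of_nonneg_left _ (by positivity)
      have h5 := h2
      push_cast at h5
      exact h5)
  -- the forbidden graph on the cube
  let adj : (Fin n → ZMod 2) → (Fin n → ZMod 2) → Prop := fun x z => ψ z ∈ H (ψ x)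
  have hNb : ∀ x z, z ∈ BC.Nb adj x ↔ ψ z ∈ H (ψ x) := by
    intro x z
    simp [BC.Nb, adj]
  have hsymm : ∀ x z, adj x z → adj z x := by
    intro x z h
    have h1 := (mem_filter.mp h).2
    exact mem_filter.mpr ⟨mem_univ _, h1.1.symm, fun h2 => h1.2 h2.symm⟩
  have hΔ : ∀ x, ((BC.Nb adj x).card : ℝ) ≤ c * N := by
    intro x
    refine le_trans ?_ (hH (ψ x))
    have h1 : (BC.Nb adj x).card ≤ (H (ψ x)).card := by
      apply card_le_card_of_injOn ψ
      · intro z hz
        exact (hNb x z).mp hz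
      · exact ψ.injective.injOn
    exact_mod_cast h1
  have hrep : ∀ v x, ((univ.filter (fun r => K.sh r x ∈ BC.Nb adj v)).card : ℝ) ≤
      6 * c * L := by
    intro v x
    have h1 := hψ (ψ v, x)
    have h2 : (univ.filter (fun r => K.sh r x ∈ BC.Nb adj v)).card ≤
        ((univ.image (fun r => K.sh r x)).filter (fun a => ψ a ∈ H (ψ v))).card := by
      apply card_le_card_of_injOn (fun r => K.sh r x)
      · intro r hr
        refine mem_filter.mpr ⟨mem_image_of_mem _ (mem_univ _), ?_⟩
        exact (hNb _ _).mp (mem_filter.mp hr).2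
      · intro r _ r' _ hrr
        have h3 : x + cc n r = x + cc n r' := hrr
        exact cc_inj hl4 (add_left_cancel h3)
    have h3 : (univ.filter (fun r => K.sh r x ∈ BC.Nb adj v)).card + 1 ≤ t := by
      have := lt_of_le_of_lt h2 h1
      omega
    have h4 : ((univ.filter (fun r => K.sh r x ∈ BC.Nb adj v)).card : ℝ) + 1 ≤ t := by
      exact_mod_cast h3
    linarith
  obtain ⟨F, hFinj, hF⟩ := main adj hsymm hΔ hrep
  refine ⟨fun x => ψ (F x), ψ.injective.comp hFinj, ?_⟩
  intro x i
  have h1 := hF x i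
  have h2 : K.nbr i x = x + Pi.single i 1 := rfl
  rw [h2] at h1
  by_contra hcon
  apply h1
  refine mem_filter.mpr ⟨mem_univ _, ?_, hcon⟩
  intro h3
  have h4 := hFinj (ψ.injective h3)
  have h5 := congrFun h4 i
  simp only [Pi.add_apply, Pi.single_eq_same] at h5
  have h6 : (x i : ZMod 2) ≠ x i + 1 := by
    generalize x i = a
    revert a; decide
  exact h6 h5

end Pool.Agent.H80.Cube
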