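import Pool.Agent.H16.Cube.Main
import Pool.Agent.H73.Cube.CubeGeom
import Pool.Agent.H80.Cube.Reduce
import Pool.Agent.H80.Cube.Num2

/-!
# Minimum degree `(1 - γ / √n) 2^n` forces a spanning hypercube
-/

open Finset

set_option linter.unusedVariables false

namespace Pool.Agent.H80.Cube

open Pool.Agent.H16.Cube

/-- The theorem for large `n`. -/
theorem big (n : ℕ) (hn : 3072 ^ 2 ≤ n) (G : SimpleGraph (Fin (2 ^ n))) [DecidableRel G.Adj]
    (hG : ∀ v, (1 - 1 / 40000 / Real.sqrt n) * (2 : ℝ) ^ n < (G.degree v : ℝ)) :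
    ∃ F : (Fin n → ZMod 2) → Fin (2 ^ n), Function.Injective F ∧
      ∀ x i, G.Adj (F x) (F (x + Pi.single i 1)) := by
  classical
  obtain ⟨q, h, l, h12, hq1, hq2, hn1, hn2, hl1, hl2, hl4, hqh, hnh⟩ := exists_params n hn
  set c : ℝ := 1 / 40000 / Real.sqrt n with hc
  have hq0 : (0 : ℝ) < q := q_pos q h h12 hq1
  have hqn : q ≤ n := (Nat.le_self_pow (by norm_num) q).trans hn1
  have hs1 : (q : ℝ) ≤ Real.sqrt n := by
    apply Real.le_sqrt_of_sq_le
    exact_mod_cast hn1
  have hs2 : Real.sqrt n ≤ (q : ℝ) + 1 := by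
    rw [Real.sqrt_le_left (by positivity)]
    exact_mod_cast hn2.le
  have hs0 : 0 < Real.sqrt n := lt_of_lt_of_le hq0 hs1
  have hceq : c = 1 / (40000 * Real.sqrt n) := by rw [hc, div_div]
  have hc1 : 1 / (40000 * ((q : ℝ) + 1)) ≤ c := by
    rw [hceq]
    apply one_div_le_one_div_of_le (by positivity)
    linarith
  have hc2 : c ≤ 1 / (40000 * (q : ℝ)) := by
    rw [hceq]
    apply one_div_le_one_div_of_le (by positivity)
    linarith
  have hc0 : 0 < c := c_pos q c hc1
  have hL0 : (0 : ℝ) < 2 ^ l := by positivity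
  refine reduce n l (hl4.trans hqn) (by omega) c hc0 (num_reduce n q h l h12 hq1 hn1 hl1 c hc1)
    G hG ?_
  intro adj _ hsymm hΔ hrep
  have hκ : ∀ y d : Fin n → ZMod 2, (univ.filter (fun t : Fin l → ZMod 2 =>
      adj y (d + cc n t))).card ≤ ⌊6 * c * 2 ^ l⌋₊ := by
    intro y d
    apply Nat.le_floor
    refine le_trans (le_of_eq ?_) (hrep y d)
    congr 2
    ext t
    rw [mem_filter, mem_filter]
    simp only [mem_univ, true_and, BC.Nb, mem_filter]
    exact Iff.rfl
  have hκr : ((⌊6 * c * 2 ^ l⌋₊ : ℕ) : ℝ) ≤ 6 * c * 2 ^ l := Nat.floor_le (by positivity)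
  have hkc48 := num_kc q h h12 hq1 c hc2
  obtain ⟨F, hF1, hF2⟩ := Pool.Agent.H73.Cube.cube_embed (n := n) (k := q) (l := l) hqn hl4 adj
    (by omega) h (by omega) (2 ^ h) rfl ⌊6 * c * 2 ^ l⌋₊ (fun y d => by convert hκ y d)
    (by
      have h1 : (8 : ℝ) * ((q : ℝ) + 1) * ((⌊6 * c * 2 ^ l⌋₊ : ℕ) : ℝ) ≤ 2 ^ l := by
        calc (8 : ℝ) * ((q : ℝ) + 1) * ((⌊6 * c * 2 ^ l⌋₊ : ℕ) : ℝ)
            ≤ 8 * ((q : ℝ) + 1) * (6 * c * 2 ^ l) :=
              mul_le_mul_of_nonneg_left hκr (by positivity)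
          _ = (48 * ((q : ℝ) + 1) * c) * 2 ^ l := by ring
          _ ≤ (1 / 100) * 2 ^ l := mul_le_mul_of_nonneg_right hkc48 hL0.le
          _ ≤ 2 ^ l := by linarith
      exact_mod_cast h1)
    (by
      by_contra hcon
      have h1 : l ≤ 2 := by omega
      have h2 : 2 ^ l ≤ 2 ^ 2 := Nat.pow_le_pow_right (by norm_num) h1
      have h3 : n ≤ n ^ 3 := Nat.le_self_pow (by norm_num) n
      have h4 : n ≤ 2 ^ 2 := h3.trans (hl1.trans h2)
      have h5 := hn.trans h4
      norm_num at h5)
    (by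
      have h1 := num_pow n q h h12 hq1 hq2 hn2 c hc1 hc2
      have hc3 := c_le q h h12 hq1 c hc2
      rw [← one_div]
      refine h1.trans ?_
      apply pow_le_pow_left₀ (by linarith)
      have h2 : 4 * ((⌊6 * c * 2 ^ l⌋₊ : ℕ) : ℝ) / 2 ^ l ≤ 24 * c := by
        rw [div_le_iff₀ hL0]
        linarith
      linarith)
    c hc0.le
    (by
      intro v
      refine le_trans (le_of_eq ?_) (hΔ v)
      congr 2
      ext y
      simp only [mem_filter, mem_univ, true_and, BC.Nb]
      exact ⟨fun h => hsymm _ _ h, fun h => hsymm _ _ h⟩)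
    (by linarith)
    (num_beta n q h l h12 hq1 hn1 hl1 hl4)
    (num_nA n h hnh)
    (2 * (n : ℝ))
    (num_E1 n q h l h12 hq1 hn1 hl2 hqh hnh)
    (num_E2 n q h l h12 hq1 hl2 hqh hnh)
    (num_exp n (by omega))
  refine ⟨F, hF1, ?_⟩
  intro x i
  change ¬ adj (F x) (F (x + Pi.single i 1))
  have hz : ∀ a : ZMod 2, a = 0 ∨ a = 1 := by decide
  rcases hz (par x) with h0 | h1
  · have h2 : par (x + Pi.single i 1) = 1 := by
      rw [par_add, par_single, h0, zero_add]
    have h3 := hF2 (x + Pi.single i 1) h2 i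
    have h4 : x + Pi.single i 1 + Pi.single i 1 = x := by
      rw [add_assoc, fun_add_self, add_zero]
    rw [h4] at h3
    exact fun h5 => h3 (hsymm _ _ h5)
  · exact hF2 x h1 i

/-- The theorem. -/
theorem final : ∃ γ : ℝ, 0 < γ ∧ ∀ n : ℕ, ∀ G : SimpleGraph (Fin (2 ^ n)),
    ∀ [DecidableRel G.Adj],
      (∀ v : Fin (2 ^ n), ((G.degree v : ℕ) : ℝ) > (1 - γ / Real.sqrt n) * (2 : ℝ) ^ n) →
      ∃ f : (Fin n → Bool) ↪ Fin (2 ^ n),
        ∀ x y : Fin n → Bool, hammingDist x y = 1 → G.Adj (f x) (f y) := by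
  classical
  set n₀ : ℕ := 3072 ^ 2 with hn₀
  set γ : ℝ := min (1 / 40000) (1 / (2 ^ (2 * n₀))) with hγ
  have hγ0 : 0 < γ := by
    rw [hγ]
    exact lt_min (by norm_num) (by positivity)
  refine ⟨γ, hγ0, ?_⟩
  intro n G _ hG
  by_cases hn : n₀ ≤ n
  · apply Pool.Agent.H16.Cube.toBool
    apply big n hn G
    intro v
    refine lt_of_le_of_lt ?_ (hG v)
    apply mul_le_mul_of_nonneg_right _ (by positivity)
    have h1 : γ / Real.sqrt n ≤ 1 / 40000 / Real.sqrt n :=
      div_le_div_of_nonneg_right (min_le_left _ _) (Real.sqrt_nonneg _)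
    linarith
  · -- `G` is complete
    push Not at hn
    have hcomplete : ∀ v w, v ≠ w → G.Adj v w := by
      intro v w hvw
      by_contra hadj
      have h1 : G.degree v + 2 ≤ 2 ^ n := by
        have h2 : insert v (insert w (G.neighborFinset v)) ⊆ univ := subset_univ _
        have h3 := card_le_card h2
        rw [card_insert_of_notMem, card_insert_of_notMem, G.card_neighborFinset_eq_degree,
          card_univ, Fintype.card_fin] at h3
        · exact h3
        · intro h; exact hadj ((G.mem_neighborFinset v w).mp h)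
        · intro h
          rcases mem_insert.mp h with h | h
          · exact hvw h
          · exact G.loopless.irrefl v ((G.mem_neighborFinset v v).mp h)
      have h1' : (G.degree v : ℝ) + 2 ≤ 2 ^ n := by exact_mod_cast h1
      have h2 := hG v
      have h3 : γ / Real.sqrt n * 2 ^ n ≤ 1 := by
        have h4 : 1 / Real.sqrt n ≤ 1 := by
          rcases Nat.eq_zero_or_pos n with h0 | h0
          · subst h0; simp
          · have h5 : (1 : ℝ) ≤ Real.sqrt n := by
              rw [Real.one_le_sqrt]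
              exact_mod_cast h0
            rw [div_le_one (by linarith)]
            exact h5
        have h5 : (0 : ℝ) ≤ 1 / Real.sqrt n := by positivity
        have h6 : (2 : ℝ) ^ n ≤ 2 ^ (2 * n₀) := pow_le_pow_right₀ (by norm_num) (by omega)
        calc γ / Real.sqrt n * 2 ^ n = γ * (1 / Real.sqrt n) * 2 ^ n := by ring
          _ ≤ γ * 1 * 2 ^ n := by
              apply mul_le_mul_of_nonneg_right _ (by positivity)
              exact mul_le_mul_of_nonneg_left h4 hγ0.le
          _ ≤ (1 / (2 ^ (2 * n₀))) * 1 * 2 ^ (2 * n₀) := by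
              apply mul_le_mul _ h6 (by positivity) (by positivity)
              exact mul_le_mul_of_nonneg_right (min_le_right _ _) (by norm_num)
          _ = 1 := by
              rw [mul_one, one_div, inv_mul_cancel₀ (by positivity)]
      nlinarith
    have hcard : Fintype.card (Fin n → Bool) = Fintype.card (Fin (2 ^ n)) := by simp
    let e := Fintype.equivOfCardEq hcard
    refine ⟨e.toEmbedding, ?_⟩
    intro x y hxy
    apply hcomplete
    intro h
    have : x = y := e.injective h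
    subst this
    simp at hxy

end Pool.Agent.H80.Cube
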