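import Pool.Agent.H16.Cube.Num

/-!
# Parameters of the square root theorem
-/

set_option linter.unusedVariables false

namespace Pool.Agent.H80.Cube

open Pool.Agent.H16.Cube

theorem pow_bound (h : ℕ) (hh : 12 ≤ h) : 256 * (h + 1) ≤ 2 ^ h := by
  induction h, hh using Nat.le_induction with
  | base => norm_num
  | succ m hm ih => rw [pow_succ]; omega

/-- The integer parameters. -/
theorem exists_params (n : ℕ) (hn : 3072 ^ 2 ≤ n) : ∃ q h l : ℕ, 12 ≤ h ∧ 256 * h ≤ q ∧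
    q < 256 * (h + 1) ∧ q ^ 2 ≤ n ∧ n < (q + 1) ^ 2 ∧ n ^ 3 ≤ 2 ^ l ∧ 2 ^ l ≤ 2 * n ^ 3 ∧
    4 * l ≤ q ∧ q + 1 ≤ 2 ^ h ∧ n < 2 ^ (2 * h) := by
  set q := Nat.sqrt n with hq
  have hq1 : q ^ 2 ≤ n := by rw [sq]; exact Nat.sqrt_le n
  have hq2 : n < (q + 1) ^ 2 := Nat.lt_succ_sqrt' n
  have hq3 : 3072 ≤ q := by
    rw [hq, Nat.le_sqrt]
    rw [← sq]; exact hn
  set h := q / 256 with hh
  have h1 : 256 * h ≤ q := Nat.mul_div_le q 256
  have h2 : q < 256 * (h + 1) := by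
    have := Nat.lt_mul_div_succ q (show 0 < 256 by norm_num)
    rw [hh]; exact this
  have h3 : 12 ≤ h := by omega
  have h4 := pow_bound h h3
  have h5 : q + 1 ≤ 2 ^ h := by omega
  have h6 : n < 2 ^ (2 * h) := by
    calc n < (q + 1) ^ 2 := hq2
      _ ≤ (2 ^ h) ^ 2 := Nat.pow_le_pow_left h5 2
      _ = 2 ^ (2 * h) := by rw [← pow_mul, mul_comm]
  obtain ⟨l, hl1, hl2⟩ : ∃ l, n ^ 3 ≤ 2 ^ l ∧ 2 ^ l < 2 * n ^ 3 := by
    have hn3 : 1 < n ^ 3 := by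
      have : 1 < n := lt_of_lt_of_le (by norm_num) hn
      exact Nat.one_lt_pow (by norm_num) this
    refine ⟨Nat.clog 2 (n ^ 3), Nat.le_pow_clog (by norm_num) _, ?_⟩
    have h7 := Nat.pow_pred_clog_lt_self (b := 2) (by norm_num) hn3
    have h8 : 0 < Nat.clog 2 (n ^ 3) := Nat.clog_pos (by norm_num) hn3
    have h9 : Nat.clog 2 (n ^ 3) = (Nat.clog 2 (n ^ 3)).pred + 1 := by
      rw [Nat.pred_eq_sub_one]; omega
    rw [h9, pow_succ]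
    omega
  have h7 : 4 * l ≤ q := by
    have h8 : 2 ^ l < 2 ^ (6 * h + 1) := by
      calc 2 ^ l < 2 * n ^ 3 := hl2
        _ ≤ 2 * (2 ^ (2 * h)) ^ 3 := Nat.mul_le_mul_left _ (Nat.pow_le_pow_left h6.le 3)
        _ = 2 ^ (6 * h + 1) := by rw [← pow_mul, pow_succ]; ring
    have h9 := (Nat.pow_lt_pow_iff_right (by norm_num : 1 < 2)).mp h8
    omega
  exact ⟨q, h, l, h3, h1, h2, hq1, hq2, hl1, hl2.le, h7, h5, h6⟩

section

variable (n q h l : ℕ) (h12 : 12 ≤ h) (hq1 : 256 * h ≤ q) (hq2 : q < 256 * (h + 1))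
  (hn1 : q ^ 2 ≤ n) (hn2 : n < (q + 1) ^ 2) (hl1 : n ^ 3 ≤ 2 ^ l) (hl2 : 2 ^ l ≤ 2 * n ^ 3)
  (hqh : q + 1 ≤ 2 ^ h) (hnh : n < 2 ^ (2 * h)) (c : ℝ)
  (hc1 : 1 / (40000 * ((q : ℝ) + 1)) ≤ c) (hc2 : c ≤ 1 / (40000 * (q : ℝ)))

include h12 hq1 in
theorem q_pos : (0 : ℝ) < q := by
  have : 0 < q := by omega
  exact_mod_cast this

include h12 hq1 hn1 in
theorem n_big : 3072 ^ 2 ≤ n :=
  le_trans (Nat.pow_le_pow_left (show 3072 ≤ q by omega) 2) hn1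

include h12 hq1 hc2 in
theorem c_le : c ≤ 1 / 1000000 := by
  refine hc2.trans ?_
  apply one_div_le_one_div_of_le (by norm_num)
  have h1 : (3072 : ℝ) ≤ q := by
    have : 3072 ≤ q := by omega
    exact_mod_cast this
  linarith

include hc1 in
theorem c_pos : 0 < c := lt_of_lt_of_le (by positivity) hc1

include h12 hq1 hn1 hl1 hc1 in
theorem num_reduce : 2 * (n : ℝ) + 1 ≤ 6 * c * 2 ^ l := by
  have hnb := n_big n q h h12 hq1 hn1
  have hn : ((3072 : ℝ) ^ 2) ≤ n := by exact_mod_cast hnb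
  have hq : (q : ℝ) + 1 ≤ n := by
    have h1 : q + 1 ≤ q ^ 2 := by nlinarith
    exact_mod_cast h1.trans hn1
  have hl : (n : ℝ) ^ 3 ≤ 2 ^ l := by exact_mod_cast hl1
  have hc : 1 / (40000 * (n : ℝ)) ≤ c := by
    refine le_trans ?_ hc1
    apply one_div_le_one_div_of_le (by positivity)
    linarith
  have hn0 : (0 : ℝ) < n := by linarith [show (0:ℝ) < (3072:ℝ)^2 by norm_num]
  calc 2 * (n : ℝ) + 1 ≤ 6 / 40000 * (n : ℝ) ^ 2 := by nlinarith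
    _ = 6 * (1 / (40000 * (n : ℝ))) * (n : ℝ) ^ 3 := by field_simp
    _ ≤ 6 * c * 2 ^ l := by
        apply mul_le_mul _ hl (by positivity) _
        · linarith
        · have := c_pos q c hc1
          positivity

include h12 hq1 hc2 in
theorem num_kc : 48 * ((q : ℝ) + 1) * c ≤ 1 / 100 := by
  have hq := q_pos q h h12 hq1
  have h1 : (3072 : ℝ) ≤ q := by
    have : 3072 ≤ q := by omega
    exact_mod_cast this
  calc 48 * ((q : ℝ) + 1) * c ≤ 48 * ((q : ℝ) + 1) * (1 / (40000 * (q : ℝ))) :=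
        mul_le_mul_of_nonneg_left hc2 (by positivity)
    _ ≤ 1 / 100 := by
        rw [mul_one_div, div_le_div_iff₀ (by positivity) (by norm_num)]
        linarith

include h12 hq1 hq2 hn2 hc1 hc2 in
/-- `(1 - 24 c)^n` is at least `1 / A`. -/
theorem num_pow : (1 : ℝ) / 2 ^ h ≤ (1 - 24 * c) ^ n := by
  have hq := q_pos q h h12 hq1
  have hc0 := c_pos q c hc1
  have hc := c_le q h h12 hq1 c hc2
  have h1 := one_sub_ge (show 0 ≤ 24 * c by positivity) (by linarith)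
  have h2 : (Real.exp (-(2 * (24 * c)))) ^ n ≤ (1 - 24 * c) ^ n :=
    pow_le_pow_left₀ (Real.exp_pos _).le h1 n
  refine le_trans ?_ h2
  rw [← Real.exp_nat_mul, one_div, ← Real.exp_log (show (0 : ℝ) < 2 ^ h by positivity),
    ← Real.exp_neg, Real.log_pow]
  apply Real.exp_le_exp.mpr
  have h3 : (n : ℝ) ≤ ((q : ℝ) + 1) ^ 2 := by exact_mod_cast hn2.le
  have h4 : (n : ℝ) * (2 * (24 * c)) ≤ h * Real.log 2 := by
    have h5 : (n : ℝ) * (2 * (24 * c)) ≤ ((q : ℝ) + 1) ^ 2 * (2 * (24 * (1 / (40000 * (q : ℝ))))) := by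
      apply mul_le_mul h3 _ (by positivity) (by positivity)
      linarith
    have h6 : ((q : ℝ) + 1) ^ 2 * (2 * (24 * (1 / (40000 * (q : ℝ))))) ≤ 48 / 40000 * (q + 3) := by
      have e1 : ((q : ℝ) + 1) ^ 2 * (2 * (24 * (1 / (40000 * (q : ℝ))))) =
          48 / 40000 * (((q : ℝ) + 1) ^ 2 / q) := by field_simp; norm_num
      rw [e1]
      apply mul_le_mul_of_nonneg_left _ (by norm_num)
      rw [div_le_iff₀ hq]
      have h1q : (1 : ℝ) ≤ q := by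
        have : 1 ≤ q := by omega
        exact_mod_cast this
      nlinarith
    have h7 : (q : ℝ) ≤ 256 * (h + 1) := by exact_mod_cast hq2.le
    have h8 := Real.log_two_gt_d9
    have h9 : (12 : ℝ) ≤ h := by exact_mod_cast h12
    nlinarith
  linarith

theorem exp_neg_two_lt : Real.exp (-2) ≤ 1 / 7 := by
  have h1 : Real.exp 2 = Real.exp 1 * Real.exp 1 := by rw [← Real.exp_add]; norm_num
  have h2 := Real.exp_one_gt_d9
  rw [Real.exp_neg, ← one_div]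
  apply one_div_le_one_div_of_le (by norm_num)
  rw [h1]
  nlinarith

/-- The union bound over pairs. -/
theorem num_union (n : ℕ) (hn : 2 ≤ n) (M : ℝ) (hM1 : 1 ≤ M) (hM : 2 * M = 2 ^ n) :
    (2 * M + 2 * M ^ 2) * Real.exp (-(2 * (n : ℝ))) ≤ 1 / 2 := by
  have h1 : 2 * M + 2 * M ^ 2 ≤ (4 : ℝ) ^ n := by
    have : (4 : ℝ) ^ n = (2 * M) ^ 2 := by
      rw [hM, ← pow_mul, mul_comm, pow_mul]; norm_num
    rw [this]; nlinarith
  have h2 : Real.exp (-(2 * (n : ℝ))) = Real.exp (-2) ^ n := by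
    rw [← Real.exp_nat_mul]; congr 1; ring
  rw [h2]
  calc (2 * M + 2 * M ^ 2) * Real.exp (-2) ^ n ≤ 4 ^ n * (1 / 7) ^ n := by
        apply mul_le_mul h1 _ (by positivity) (by positivity)
        exact pow_le_pow_left₀ (Real.exp_pos _).le exp_neg_two_lt n
    _ = (4 / 7) ^ n := by rw [← mul_pow]; norm_num
    _ ≤ (4 / 7) ^ 2 := pow_le_pow_of_le_one (by norm_num) (by norm_num) hn
    _ ≤ 1 / 2 := by norm_num

include h12 hq1 hn1 hnh hl2 in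
/-- Stage one. -/
theorem num_stage1 (M : ℝ) (hM : 2 * M = 2 ^ n) :
    2 * (n : ℝ) * (4 * ((n * 2 ^ l : ℕ) : ℝ) ^ 2 * ((2 : ℝ) ^ h) ^ 42) ≤ M := by
  have h1 : (n : ℝ) ≤ 2 ^ (2 * h) := by exact_mod_cast hnh.le
  have h2 : ((2 : ℝ)) ^ l ≤ 2 * (n : ℝ) ^ 3 := by exact_mod_cast hl2
  have h3 : ((n * 2 ^ l : ℕ) : ℝ) ≤ 2 * (n : ℝ) ^ 4 := by
    push_cast
    calc (n : ℝ) * 2 ^ l ≤ n * (2 * (n : ℝ) ^ 3) := mul_le_mul_of_nonneg_left h2 (by positivity)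
      _ = _ := by ring
  have h4 : 2 * (n : ℝ) * (4 * ((n * 2 ^ l : ℕ) : ℝ) ^ 2 * ((2 : ℝ) ^ h) ^ 42) ≤
      32 * (n : ℝ) ^ 9 * ((2 : ℝ) ^ h) ^ 42 := by
    have h5 : ((n * 2 ^ l : ℕ) : ℝ) ^ 2 ≤ (2 * (n : ℝ) ^ 4) ^ 2 :=
      pow_le_pow_left₀ (by positivity) h3 2
    calc _ ≤ 2 * (n : ℝ) * (4 * (2 * (n : ℝ) ^ 4) ^ 2 * ((2 : ℝ) ^ h) ^ 42) := by gcongr
      _ = _ := by ring
  refine h4.trans ?_
  have h6 : 32 * (n : ℝ) ^ 9 * ((2 : ℝ) ^ h) ^ 42 ≤ 2 ^ (60 * h + 5) := by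
    calc 32 * (n : ℝ) ^ 9 * ((2 : ℝ) ^ h) ^ 42 ≤
        32 * ((2 : ℝ) ^ (2 * h)) ^ 9 * ((2 : ℝ) ^ h) ^ 42 := by gcongr
      _ = 2 ^ (60 * h + 5) := by
          rw [← pow_mul, ← pow_mul, pow_add]
          have : (2 : ℝ) ^ (60 * h) = 2 ^ (2 * h * 9) * 2 ^ (h * 42) := by
            rw [← pow_add]; congr 1; ring
          rw [this]; ring
  refine h6.trans ?_
  have h7 : 60 * h + 5 + 1 ≤ n := by
    have : q ≤ q ^ 2 := Nat.le_self_pow (by norm_num) q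
    omega
  have h8 : (2 : ℝ) ^ (60 * h + 5 + 1) ≤ 2 ^ n := pow_le_pow_right₀ (by norm_num) h7
  rw [pow_succ] at h8
  linarith

include hnh in
theorem num_nA : (n : ℝ) + 1 ≤ 5 * ((2 : ℝ) ^ h) ^ 2 := by
  have h1 : (n : ℝ) ≤ 2 ^ (2 * h) := by exact_mod_cast hnh.le
  have h2 : ((2 : ℝ) ^ h) ^ 2 = 2 ^ (2 * h) := by rw [← pow_mul, mul_comm]
  rw [h2]
  have h3 : (1 : ℝ) ≤ 2 ^ (2 * h) := one_le_pow₀ (by norm_num)
  linarith

end

end Pool.Agent.H80.Cube
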